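import Pool.Agent.U695.VP.Main

set_option autoImplicit false

open scoped BigOperators
open MvPowerSeries

namespace Pool.Agent.U695.VP

variable {n : ℕ}


/-- constant vectors -/
noncomputable def cv (a : Fin n → ℂ) : Fin n → (MvPowerSeries (Fin n) ℂ) := fun i => C (a i)

theorem cv_dot (a b : Fin n → ℂ) : cv a ⬝ᵥ cv b = C (a ⬝ᵥ b) := by
  unfold cv
  simp only [dotProduct, map_sum, map_mul]

theorem pderiv_Cmul (i : Fin n) (x : ℂ) (G : (MvPowerSeries (Fin n) ℂ)) : pderiv ℂ i (C x * G) = C x * pderiv ℂ i G := by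
  rw [Derivation.leibniz, pderiv_C, smul_zero, add_zero, smul_eq_mul]

theorem Hes_PP {a b c : Fin n → ℂ} {F : (MvPowerSeries (Fin n) ℂ)} (hF : XT a b F) (k : ℕ) :
    Hes (PP F b c k) = (dir b (dir b F)) • Matrix.vecMulVec (cv a) (cv a)
      + ((k : (MvPowerSeries (Fin n) ℂ)) * lin c ^ (k - 1)) • (Matrix.vecMulVec (cv c) (cv b)
          + Matrix.vecMulVec (cv b) (cv c))
      + ((k : (MvPowerSeries (Fin n) ℂ)) * (((k - 1 : ℕ) : (MvPowerSeries (Fin n) ℂ)) * (lin b * lin c ^ (k - 1 - 1)))) •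
          Matrix.vecMulVec (cv c) (cv c) := by
  ext1 i j
  have e0 : PP F b c k = F * lin b ^ 0 * lin c ^ 0 + 1 * lin b ^ 1 * lin c ^ k := by
    unfold PP; ring
  have e1 : pderiv ℂ j (PP F b c k) = C (a j) * (dir b F * lin b ^ 0 * lin c ^ 0) +
      (C (b j) * (1 * lin b ^ 0 * lin c ^ k) + C (c j) * (C (k : ℂ) *
        (1 * lin b ^ 1 * lin c ^ (k - 1)))) := by
    rw [e0, map_add, pderiv_term hF, pderiv_term (XT.one a b), dir_one, natC k]
    simp only [Nat.cast_zero, Nat.cast_one]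
    ring
  have e2 : Hes (PP F b c k) i j = pderiv ℂ i (pderiv ℂ j (PP F b c k)) := rfl
  rw [e2, e1]
  simp only [map_add, pderiv_Cmul]
  rw [pderiv_term hF.dir, pderiv_term (XT.one a b), pderiv_term (XT.one a b), dir_one]
  simp only [Matrix.add_apply, Matrix.smul_apply, Matrix.vecMulVec_apply, cv, smul_eq_mul,
    Nat.cast_zero, Nat.cast_one, natC]
  ring

theorem Hes_nil {a b c : Fin n → ℂ} (h : Iso a b c) {F : (MvPowerSeries (Fin n) ℂ)} (hF : XT a b F) (k : ℕ) :
    IsNilpotent (Hes (PP F b c k)) := by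
  rw [Hes_PP hF]
  generalize (dir b (dir b F)) = p
  generalize ((k : (MvPowerSeries (Fin n) ℂ)) * lin c ^ (k - 1)) = q
  generalize ((k : (MvPowerSeries (Fin n) ℂ)) * (((k - 1 : ℕ) : (MvPowerSeries (Fin n) ℂ)) * (lin b * lin c ^ (k - 1 - 1)))) = r
  set M := p • Matrix.vecMulVec (cv a) (cv a)
      + q • (Matrix.vecMulVec (cv c) (cv b) + Matrix.vecMulVec (cv b) (cv c))
      + r • Matrix.vecMulVec (cv c) (cv c) with hM
  have haa : cv a ⬝ᵥ cv a = 0 := by rw [cv_dot, h.aa, map_zero]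
  have hbb : cv b ⬝ᵥ cv b = 0 := by rw [cv_dot, h.bb, map_zero]
  have hcc : cv c ⬝ᵥ cv c = 0 := by rw [cv_dot, h.cc, map_zero]
  have hac : cv a ⬝ᵥ cv c = 0 := by rw [cv_dot, h.ac, map_zero]
  have hbc : cv b ⬝ᵥ cv c = 0 := by rw [cv_dot, h.bc, map_zero]
  have hca : cv c ⬝ᵥ cv a = 0 := by rw [dotProduct_comm, hac]
  have hcb : cv c ⬝ᵥ cv b = 0 := by rw [dotProduct_comm, hbc]
  obtain ⟨β, hab⟩ : ∃ β : (MvPowerSeries (Fin n) ℂ), cv a ⬝ᵥ cv b = β := ⟨_, rfl⟩
  have hba : cv b ⬝ᵥ cv a = β := by rw [dotProduct_comm, hab]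
  have hc : Matrix.vecMul (cv c) M = 0 := by
    rw [hM, Matrix.vecMul_add, Matrix.vecMul_add, Matrix.vecMul_smul, Matrix.vecMul_smul,
      Matrix.vecMul_smul, Matrix.vecMul_add, Matrix.vecMul_vecMulVec, Matrix.vecMul_vecMulVec,
      Matrix.vecMul_vecMulVec, Matrix.vecMul_vecMulVec, hca, hcb, hcc]
    simp
  have ha : Matrix.vecMul (cv a) M = (q * β) • cv c := by
    rw [hM, Matrix.vecMul_add, Matrix.vecMul_add, Matrix.vecMul_smul, Matrix.vecMul_smul,
      Matrix.vecMul_smul, Matrix.vecMul_add, Matrix.vecMul_vecMulVec, Matrix.vecMul_vecMulVec,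
      Matrix.vecMul_vecMulVec, Matrix.vecMul_vecMulVec, haa, hab, hac]
    simp [smul_smul]
  have hb : Matrix.vecMul (cv b) M = (p * β) • cv a := by
    rw [hM, Matrix.vecMul_add, Matrix.vecMul_add, Matrix.vecMul_smul, Matrix.vecMul_smul,
      Matrix.vecMul_smul, Matrix.vecMul_add, Matrix.vecMul_vecMulVec, Matrix.vecMul_vecMulVec,
      Matrix.vecMul_vecMulVec, Matrix.vecMul_vecMulVec, hbb, hba, hbc]
    simp [smul_smul]
  have h2 : M * M = (p * (q * β)) • Matrix.vecMulVec (cv a) (cv c) +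
      (q * (p * β)) • Matrix.vecMulVec (cv c) (cv a) := by
    conv_lhs => rw [hM]
    rw [← hM, Matrix.add_mul, Matrix.add_mul, Matrix.smul_mul, Matrix.smul_mul, Matrix.smul_mul,
      Matrix.add_mul, Matrix.vecMulVec_mul, Matrix.vecMulVec_mul, Matrix.vecMulVec_mul,
      Matrix.vecMulVec_mul, ha, hb, hc]
    simp [Matrix.vecMulVec_smul, smul_smul]
  have h3 : M * M * M = (q * (p * β) * (q * β)) • Matrix.vecMulVec (cv c) (cv c) := by
    rw [h2, Matrix.add_mul, Matrix.smul_mul, Matrix.smul_mul, Matrix.vecMulVec_mul,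
      Matrix.vecMulVec_mul, ha, hc]
    simp [Matrix.vecMulVec_smul, smul_smul]
  have h4 : M * M * M * M = 0 := by
    rw [h3, Matrix.smul_mul, Matrix.vecMulVec_mul, hc]
    simp
  exact ⟨4, by rw [pow_succ, pow_succ, pow_succ, pow_one, h4]⟩

/-- The formal power series `∑_{j ≥ N} (a·z)^j / j!` : the coefficient at the exponent `d` is
`∏ i, a i ^ d i / (d i)!` when the total degree of `d` is at least `N`, and zero otherwise. -/
noncomputable def expTail (a : Fin n → ℂ) (N : ℕ) : MvPowerSeries (Fin n) ℂ :=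
  fun d => if N ≤ ∑ i, d i then ∏ i, a i ^ (d i) / ((d i).factorial : ℂ) else 0

theorem coeff_expTail (a : Fin n → ℂ) (N : ℕ) (d : Fin n →₀ ℕ) :
    coeff d (expTail a N) =
      if N ≤ ∑ i, d i then ∏ i, a i ^ (d i) / ((d i).factorial : ℂ) else 0 := rfl

theorem pderiv_expTail (a : Fin n → ℂ) (N : ℕ) (i : Fin n) :
    pderiv ℂ i (expTail a N) = C (a i) * expTail a (N - 1) := by
  ext d
  rw [coeff_pderiv, coeff_C_mul, coeff_expTail, coeff_expTail]
  have hs : ∑ j, (d + Finsupp.single i 1 : Fin n →₀ ℕ) j = ∑ j, d j + 1 := by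
    simp only [Finsupp.add_apply, Finset.sum_add_distrib]
    congr 1
    rw [Finset.sum_eq_single i]
    · simp
    · intro j _ hj; simp [Finsupp.single_apply, hj.symm]
    · simp
  rw [hs]
  by_cases hN : N ≤ ∑ j, d j + 1
  · rw [if_pos hN, if_pos (by omega)]
    rw [← Finset.mul_prod_erase _ _ (Finset.mem_univ i),
      ← Finset.mul_prod_erase _ _ (Finset.mem_univ i)]
    have : ∏ j ∈ Finset.univ.erase i, a j ^ ((d + Finsupp.single i 1 : Fin n →₀ ℕ) j) /
        (((d + Finsupp.single i 1 : Fin n →₀ ℕ) j).factorial : ℂ) =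
        ∏ j ∈ Finset.univ.erase i, a j ^ (d j) / ((d j).factorial : ℂ) := by
      refine Finset.prod_congr rfl fun j hj => ?_
      have hj' : j ≠ i := Finset.ne_of_mem_erase hj
      simp [Finsupp.single_apply, hj'.symm]
    rw [this]
    simp only [Finsupp.add_apply, Finsupp.single_eq_same]
    rw [Nat.factorial_succ, pow_succ]
    have h1 : ((d i).factorial : ℂ) ≠ 0 := by exact_mod_cast Nat.factorial_ne_zero _
    have h2 : ((d i : ℂ) + 1) ≠ 0 := by exact_mod_cast Nat.succ_ne_zero (d i)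
    push_cast
    field_simp
  · rw [if_neg hN, if_neg (by omega)]; simp

theorem dir_expTail {a b : Fin n → ℂ} (hab : a ⬝ᵥ b = 1) (N : ℕ) :
    dir b (expTail a N) = expTail a (N - 1) := by
  unfold dir
  have : ∀ i, (C (b i) : (MvPowerSeries (Fin n) ℂ)) * pderiv ℂ i (expTail a N) = C (a i * b i) * expTail a (N - 1) := by
    intro i
    rw [pderiv_expTail, map_mul]; ring
  rw [Finset.sum_congr rfl fun i _ => this i, ← Finset.sum_mul, ← map_sum]
  have : ∑ i, a i * b i = 1 := hab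
  rw [this, map_one, one_mul]

theorem dir_iter_expTail {a b : Fin n → ℂ} (hab : a ⬝ᵥ b = 1) (m N : ℕ) :
    (dir b)^[m] (expTail a N) = expTail a (N - m) := by
  induction m generalizing N with
  | zero => rfl
  | succ m ih => rw [Function.iterate_succ_apply, dir_expTail hab, ih]; congr 1; omega

theorem XT_expTail {a b : Fin n → ℂ} (hab : a ⬝ᵥ b = 1) (N : ℕ) : XT a b (expTail a N) := by
  intro i
  rw [dir_expTail hab, pderiv_expTail]

theorem coeff_single_expTail (a : Fin n → ℂ) (N M : ℕ) (hM : N ≤ M) (i : Fin n) :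
    coeff (Finsupp.single i M) (expTail a N) = a i ^ M / (M.factorial : ℂ) := by
  rw [coeff_expTail]
  have h1 : ∑ j, (Finsupp.single i M) j = M := by
    rw [Finset.sum_eq_single i]
    · simp
    · intro j _ hj; simp [Finsupp.single_apply, hj.symm]
    · simp
  rw [h1, if_pos hM, Finset.prod_eq_single i]
  · simp
  · intro j _ hj; simp [Finsupp.single_apply, hj.symm]
  · simp

theorem expTail_ne_zero {a : Fin n → ℂ} {i : Fin n} (hi : a i ≠ 0) (N : ℕ) :
    expTail a N ≠ 0 := by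
  intro h
  have := coeff_single_expTail a N N le_rfl i
  rw [h] at this
  have h1 : (N.factorial : ℂ) ≠ 0 := by exact_mod_cast Nat.factorial_ne_zero _
  have h2 : a i ^ N / (N.factorial : ℂ) ≠ 0 := div_ne_zero (pow_ne_zero _ hi) h1
  exact h2 (by rw [← this]; simp)

theorem IsPoly.sub {F G : (MvPowerSeries (Fin n) ℂ)} (hF : IsPoly F) (hG : IsPoly G) : IsPoly (F - G) := by
  obtain ⟨p, rfl⟩ := hF
  obtain ⟨q, rfl⟩ := hG
  refine ⟨p - q, ?_⟩
  have := MvPolynomial.coe_add (p - q) q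
  rw [sub_add_cancel] at this
  rw [this]; ring

theorem isPoly_lin (b : Fin n → ℂ) : IsPoly (lin b) := by
  refine ⟨∑ i, MvPolynomial.C (b i) * MvPolynomial.X i, ?_⟩
  unfold lin
  have h := map_sum (MvPolynomial.coeToMvPowerSeries.ringHom (σ := Fin n) (R := ℂ))
    (fun i => MvPolynomial.C (b i) * MvPolynomial.X i) Finset.univ
  rw [MvPolynomial.coeToMvPowerSeries.ringHom_apply] at h
  rw [h]
  refine Finset.sum_congr rfl fun i _ => ?_
  rw [MvPolynomial.coeToMvPowerSeries.ringHom_apply]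
  simp

theorem isPoly_mul {F G : (MvPowerSeries (Fin n) ℂ)} (hF : IsPoly F) (hG : IsPoly G) : IsPoly (F * G) := by
  obtain ⟨p, rfl⟩ := hF
  obtain ⟨q, rfl⟩ := hG
  exact ⟨p * q, by simp⟩

theorem isPoly_pow {F : (MvPowerSeries (Fin n) ℂ)} (hF : IsPoly F) (k : ℕ) : IsPoly (F ^ k) := by
  obtain ⟨p, rfl⟩ := hF
  exact ⟨p ^ k, by simp⟩

theorem not_isPoly_expTail {a : Fin n → ℂ} {i : Fin n} (hi : a i ≠ 0) (N : ℕ) :
    ¬ IsPoly (expTail a N) := by
  rintro ⟨p, hp⟩
  set M := max N (p.totalDegree + 1) with hM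
  have h1 := coeff_single_expTail a N M (le_max_left _ _) i
  rw [← hp, MvPolynomial.coeff_coe] at h1
  have h2 : p.coeff (Finsupp.single i M) = 0 := by
    apply MvPolynomial.coeff_eq_zero_of_totalDegree_lt
    have : ∑ j ∈ (Finsupp.single i M).support, (Finsupp.single i M) j = M := by
      have := Finsupp.sum_single_index (a := i) (b := M) (h := fun _ x => x) rfl
      simpa [Finsupp.sum] using this
    rw [this]
    exact lt_of_lt_of_le (Nat.lt_succ_self _) (le_max_right _ _)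
  rw [h2] at h1
  have h3 : (M.factorial : ℂ) ≠ 0 := by exact_mod_cast Nat.factorial_ne_zero _
  exact (div_ne_zero (pow_ne_zero _ hi) h3) h1.symm

theorem le_order_expTail (a : Fin n → ℂ) (N : ℕ) : (N : ℕ∞) ≤ (expTail a N).order := by
  apply nat_le_order
  intro d hd
  rw [coeff_expTail, if_neg]
  rw [Finsupp.degree_eq_sum] at hd
  omega

theorem one_le_order_lin (b : Fin n → ℂ) : 1 ≤ (lin b).order := by
  rw [one_le_order_iff_constCoeff_eq_zero]
  unfold lin
  rw [map_sum]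
  apply Finset.sum_eq_zero
  intro i _
  simp

theorem lin_ne_zero {c : Fin n → ℂ} {i : Fin n} (hi : c i ≠ 0) : lin c ≠ 0 := by
  intro h
  have h1 := pderiv_lin c i
  rw [h, map_zero] at h1
  have h2 := congrArg (coeff (0 : Fin n →₀ ℕ)) h1
  rw [coeff_zero_C, map_zero] at h2
  exact hi h2.symm

/-- The general statement. -/
theorem main {a b c : Fin n → ℂ} (h : Iso a b c) (hab : a ⬝ᵥ b = 1) (N k : ℕ)
    (hc : k = 0 ∨ ∃ i, c i ≠ 0) :
    ¬ IsPoly (PP (expTail a N) b c k) ∧ IsNilpotent (Hes (PP (expTail a N) b c k)) ∧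
    ((min N (k + 1) : ℕ) : ℕ∞) ≤ (PP (expTail a N) b c k).order ∧
    (∀ m, 1 ≤ m → Lap^[m] (PP (expTail a N) b c k ^ (m + 1)) =
      C (2 ^ m * ((m + 1).factorial : ℂ)) * (expTail a (N - m) * lin c ^ (k * m))) ∧
    ∀ m, Lap^[m] (PP (expTail a N) b c k ^ (m + 1)) ≠ 0 := by
  obtain ⟨i, hi⟩ : ∃ i, a i ≠ 0 := by
    by_contra hcon
    push Not at hcon
    have : a = 0 := funext hcon
    rw [this, zero_dotProduct] at hab
    exact zero_ne_one hab
  have hX := XT_expTail hab N
  have hnp : ¬ IsPoly (PP (expTail a N) b c k) := by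
    intro hP
    have h1 := hP.sub (isPoly_mul (isPoly_lin b) (isPoly_pow (isPoly_lin c) k))
    have h2 : PP (expTail a N) b c k - lin b * lin c ^ k = expTail a N := by
      unfold PP; ring
    rw [h2] at h1
    exact not_isPoly_expTail hi N h1
  have hform : ∀ m, 1 ≤ m → Lap^[m] (PP (expTail a N) b c k ^ (m + 1)) =
      C (2 ^ m * ((m + 1).factorial : ℂ)) * (expTail a (N - m) * lin c ^ (k * m)) := by
    intro m hm
    rw [Lap_PP h hX k m hm, hab, dir_iter_expTail hab, mul_one]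
  refine ⟨hnp, Hes_nil h hX k, ?_, hform, ?_⟩
  · refine le_trans ?_ (min_order_le_add)
    rw [Nat.mono_cast.map_min]
    refine min_le_min (le_order_expTail a N) ?_
    refine le_trans ?_ le_order_mul
    have h1 := one_le_order_lin b
    have h2 : (k : ℕ∞) ≤ (lin c ^ k).order := by
      refine le_trans ?_ (le_order_pow k)
      have := one_le_order_lin c
      calc (k : ℕ∞) = k • (1 : ℕ∞) := by simp
        _ ≤ k • (lin c).order := by gcongr
    push_cast
    rw [add_comm]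
    exact add_le_add h1 h2
  · intro m
    rcases Nat.eq_zero_or_pos m with rfl | hm
    · rw [Function.iterate_zero, id_eq, pow_succ, pow_zero, one_mul]
      intro h0
      apply hnp
      exact ⟨0, by rw [h0]; simp⟩
    · rw [hform m hm]
      have h1 : (C (2 ^ m * ((m + 1).factorial : ℂ)) : (MvPowerSeries (Fin n) ℂ)) ≠ 0 := by
        intro h0
        have h2 := congrArg (coeff (0 : Fin n →₀ ℕ)) h0
        rw [coeff_zero_C, map_zero] at h2
        have : ((m + 1).factorial : ℂ) ≠ 0 := by exact_mod_cast Nat.factorial_ne_zero _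
        exact (mul_ne_zero (pow_ne_zero _ two_ne_zero) this) h2
      refine mul_ne_zero h1 (mul_ne_zero (expTail_ne_zero hi _) ?_)
      rcases hc with rfl | ⟨j, hj⟩
      · simp
      · exact pow_ne_zero _ (lin_ne_zero hj)

/-- The vector `(1, i, 0, …, 0)`. -/
noncomputable def va (n : ℕ) : Fin n → ℂ := fun j =>
  if j.val = 0 then 1 else if j.val = 1 then Complex.I else 0

/-- The vector `(1/2, -i/2, 0, …, 0)`. -/
noncomputable def vb (n : ℕ) : Fin n → ℂ := fun j =>
  if j.val = 0 then 1 / 2 else if j.val = 1 then -Complex.I / 2 else 0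

/-- The vector `(0, 0, 1, i, 0, …, 0)`. -/
noncomputable def vc (n : ℕ) : Fin n → ℂ := fun j =>
  if j.val = 2 then 1 else if j.val = 3 then Complex.I else 0

theorem ab_one (n : ℕ) (hn : 2 ≤ n) : va n ⬝ᵥ vb n = 1 := by
  obtain ⟨m, rfl⟩ : ∃ m, n = m + 2 := ⟨n - 2, by omega⟩
  simp only [dotProduct, va, vb, Fin.sum_univ_succ]
  simp
  linear_combination (-1 / 2 : ℂ) * Complex.I_mul_I

theorem iso_two (n : ℕ) (hn : 2 ≤ n) : Iso (va n) (vb n) (0 : Fin n → ℂ) := by
  have hab := ab_one n hn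
  obtain ⟨m, rfl⟩ : ∃ m, n = m + 2 := ⟨n - 2, by omega⟩
  refine ⟨?_, ?_, ?_, ?_, ?_, ?_⟩
  · simp only [dotProduct, va, Fin.sum_univ_succ]
    simp
  · simp only [dotProduct, vb, Fin.sum_univ_succ]
    simp
    linear_combination (1 / 4 : ℂ) * Complex.I_mul_I
  · simp
  · simp
  · simp
  · rw [hab]; exact one_ne_zero

theorem iso_four (n : ℕ) (hn : 4 ≤ n) : Iso (va n) (vb n) (vc n) := by
  have h2 := iso_two n (by omega)
  obtain ⟨m, rfl⟩ : ∃ m, n = m + 4 := ⟨n - 4, by omega⟩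
  refine ⟨h2.aa, h2.bb, ?_, ?_, ?_, h2.ab⟩
  · simp only [dotProduct, vc, Fin.sum_univ_succ, Fin.val_succ, Fin.val_zero]
    norm_num
    apply Finset.sum_eq_zero
    intro x _
    rw [if_neg (by omega), if_neg (by omega)]
  · simp only [dotProduct, va, vc, Fin.sum_univ_succ, Fin.val_succ, Fin.val_zero]
    norm_num
  · simp only [dotProduct, vb, vc, Fin.sum_univ_succ, Fin.val_succ, Fin.val_zero]
    norm_num

/-- In one variable a Hessian nilpotent power series is a polynomial. -/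
theorem one_var (P : MvPowerSeries (Fin 1) ℂ) (h : IsNilpotent (Hes P)) : IsPoly P := by
  have h1 : IsNilpotent (Hes P).det := by
    obtain ⟨k, hk⟩ := h
    refine ⟨k + 1, ?_⟩
    rw [← Matrix.det_pow, pow_succ, hk, zero_mul]
    exact Matrix.det_zero
  have h2 : pderiv ℂ 0 (pderiv ℂ 0 P) = 0 := by
    rw [Matrix.det_fin_one] at h1
    exact h1.eq_zero
  refine ⟨MvPolynomial.C (coeff 0 P) + MvPolynomial.C (coeff (Finsupp.single 0 1) P) *
    MvPolynomial.X 0, ?_⟩
  ext d
  rw [MvPolynomial.coeff_coe, MvPolynomial.coeff_add, MvPolynomial.coeff_C,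
    MvPolynomial.coeff_C_mul, MvPolynomial.coeff_X]
  have hd : d = Finsupp.single 0 (d 0) := by
    ext; simp
  obtain ⟨t, ht⟩ : ∃ t, d 0 = t := ⟨_, rfl⟩
  rw [ht] at hd
  subst hd
  rcases t with _ | _ | t
  · simp
  · have h3 : (0 : Fin 1 →₀ ℕ) ≠ Finsupp.single 0 (0 + 1) := by
      intro h4
      have := DFunLike.congr_fun h4 0
      simp at this
    rw [if_neg h3, if_pos rfl]; simp
  · have h3 : (0 : Fin 1 →₀ ℕ) ≠ Finsupp.single 0 (t + 1 + 1) := by
      intro h4
      have := DFunLike.congr_fun h4 0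
      simp at this
    have h4 : (Finsupp.single 0 1 : Fin 1 →₀ ℕ) ≠ Finsupp.single 0 (t + 1 + 1) := by
      intro h4
      have := DFunLike.congr_fun h4 0
      simp at this
    rw [if_neg h3, if_neg h4]
    have h5 := congrArg (coeff (Finsupp.single (0 : Fin 1) t)) h2
    rw [coeff_pderiv, coeff_pderiv, LinearMap.map_zero, ← Finsupp.single_add,
      ← Finsupp.single_add] at h5
    have h6 : ((t + 1 : ℕ) : ℂ) ≠ 0 := by exact_mod_cast Nat.succ_ne_zero t
    have h7 : ((t + 1 + 1 : ℕ) : ℂ) ≠ 0 := by exact_mod_cast Nat.succ_ne_zero (t + 1)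
    push_cast at h6 h7
    rw [Finsupp.single_eq_same, Finsupp.single_eq_same] at h5
    push_cast at h5
    rcases mul_eq_zero.mp h5 with h5 | h5
    · rcases mul_eq_zero.mp h5 with h5 | h5
      · rw [h5]; simp
      · exact absurd h5 h7
    · exact absurd h5 h6

end Pool.Agent.U695.VP
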