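import Mathlib

/-!
# Hessian nilpotent power series without the vanishing property

Vectors `a, b, c` with `a·a = b·b = c·c = a·c = b·c = 0`, `a·b ≠ 0`;
`P = f(a·z) + (b·z) (c·z)^k` with `f` a non-polynomial power series.
-/

set_option autoImplicit false

open scoped BigOperators
open MvPowerSeries

namespace Pool.Agent.U695.VP

/-- The Laplace operator on formal power series in `n` variables. -/
noncomputable def Lap {n : ℕ} (P : MvPowerSeries (Fin n) ℂ) : MvPowerSeries (Fin n) ℂ :=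
  ∑ i : Fin n, pderiv ℂ i (pderiv ℂ i P)

/-- The Hessian matrix of a formal power series. -/
noncomputable def Hes {n : ℕ} (P : MvPowerSeries (Fin n) ℂ) :
    Matrix (Fin n) (Fin n) (MvPowerSeries (Fin n) ℂ) :=
  fun i j => pderiv ℂ i (pderiv ℂ j P)

/-- The power series which come from polynomials. -/
def IsPoly {n : ℕ} (P : MvPowerSeries (Fin n) ℂ) : Prop :=
  ∃ p : MvPolynomial (Fin n) ℂ, (p : MvPowerSeries (Fin n) ℂ) = P

variable {n : ℕ}


theorem pderiv_comm (i j : Fin n) (F : (MvPowerSeries (Fin n) ℂ)) :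
    pderiv ℂ i (pderiv ℂ j F) = pderiv ℂ j (pderiv ℂ i F) := by
  ext d
  rw [coeff_pderiv, coeff_pderiv, coeff_pderiv, coeff_pderiv]
  rw [add_right_comm d (Finsupp.single i 1) (Finsupp.single j 1)]
  by_cases h : i = j
  · subst h; rfl
  · have h1 : (d + Finsupp.single i 1 : Fin n →₀ ℕ) j = d j := by
      simp [Finsupp.single_apply, h]
    have h2 : (d + Finsupp.single j 1 : Fin n →₀ ℕ) i = d i := by
      simp [Finsupp.single_apply, Ne.symm h]
    rw [h1, h2]; ring

/-- linear forms -/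
noncomputable def lin (b : Fin n → ℂ) : (MvPowerSeries (Fin n) ℂ) := ∑ i, C (b i) * X i

theorem pderiv_lin (b : Fin n → ℂ) (i : Fin n) : pderiv ℂ i (lin b) = C (b i) := by
  unfold lin
  rw [map_sum]
  rw [Finset.sum_eq_single i]
  · rw [Derivation.leibniz, pderiv_C, pderiv_X_self]; simp
  · intro j _ hj
    rw [Derivation.leibniz, pderiv_C, pderiv_X_of_ne hj]; simp
  · simp

/-- directional derivative -/
noncomputable def dir (b : Fin n → ℂ) (F : (MvPowerSeries (Fin n) ℂ)) : (MvPowerSeries (Fin n) ℂ) := ∑ i, C (b i) * pderiv ℂ i F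

theorem dir_mul (b : Fin n → ℂ) (F G : (MvPowerSeries (Fin n) ℂ)) : dir b (F * G) = F * dir b G + G * dir b F := by
  unfold dir
  rw [Finset.mul_sum, Finset.mul_sum, ← Finset.sum_add_distrib]
  refine Finset.sum_congr rfl fun i _ => ?_
  rw [Derivation.leibniz, smul_eq_mul, smul_eq_mul]; ring

theorem pderiv_dir (b : Fin n → ℂ) (i : Fin n) (F : (MvPowerSeries (Fin n) ℂ)) :
    pderiv ℂ i (dir b F) = dir b (pderiv ℂ i F) := by
  unfold dir
  rw [map_sum]
  refine Finset.sum_congr rfl fun j _ => ?_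
  rw [Derivation.leibniz, pderiv_C, pderiv_comm]; simp

/-- `F` is a function of `a·z` : all its partial derivatives are proportional to
those of `a·z`. -/
def XT (a b : Fin n → ℂ) (F : (MvPowerSeries (Fin n) ℂ)) : Prop := ∀ i, pderiv ℂ i F = C (a i) * dir b F

theorem XT.dir {a b : Fin n → ℂ} {F : (MvPowerSeries (Fin n) ℂ)} (h : XT a b F) : XT a b (dir b F) := by
  intro i
  rw [pderiv_dir, h i]
  rw [dir_mul]
  have : VP.dir b (C (a i) : (MvPowerSeries (Fin n) ℂ)) = 0 := by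
    unfold VP.dir
    simp
  rw [this]; ring

theorem XT.mul {a b : Fin n → ℂ} {F G : (MvPowerSeries (Fin n) ℂ)} (h : XT a b F) (h' : XT a b G) :
    XT a b (F * G) := by
  intro i
  rw [dir_mul, Derivation.leibniz, h i, h' i, smul_eq_mul, smul_eq_mul]; ring

theorem XT.one (a b : Fin n → ℂ) : XT a b (1 : (MvPowerSeries (Fin n) ℂ)) := by
  intro i
  have : VP.dir b (1 : (MvPowerSeries (Fin n) ℂ)) = 0 := by
    unfold VP.dir
    simp [pderiv_one]
  rw [this, pderiv_one]; simp

theorem XT.pow {a b : Fin n → ℂ} {F : (MvPowerSeries (Fin n) ℂ)} (h : XT a b F) (j : ℕ) : XT a b (F ^ j) := by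
  induction j with
  | zero => simpa using XT.one a b
  | succ j ih => rw [pow_succ]; exact ih.mul h

theorem XT.iter {a b : Fin n → ℂ} {F : (MvPowerSeries (Fin n) ℂ)} (h : XT a b F) (j : ℕ) : XT a b ((VP.dir b)^[j] F) := by
  induction j with
  | zero => simpa using h
  | succ j ih => rw [Function.iterate_succ_apply']; exact ih.dir

theorem dir_one (b : Fin n → ℂ) : dir b (1 : (MvPowerSeries (Fin n) ℂ)) = 0 := by
  unfold dir
  simp [pderiv_one]

theorem dir_zero (b : Fin n → ℂ) : dir b (0 : (MvPowerSeries (Fin n) ℂ)) = 0 := by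
  unfold dir
  simp

theorem dir_iter_one (b : Fin n → ℂ) (m : ℕ) (hm : 1 ≤ m) : (dir b)^[m] (1 : (MvPowerSeries (Fin n) ℂ)) = 0 := by
  obtain ⟨m, rfl⟩ : ∃ j, m = j + 1 := ⟨m - 1, by omega⟩
  rw [Function.iterate_succ_apply, dir_one]
  clear hm
  induction m with
  | zero => rfl
  | succ m ih => rw [Function.iterate_succ_apply, dir_zero, ih]

theorem Lap_add (F G : (MvPowerSeries (Fin n) ℂ)) : Lap (F + G) = Lap F + Lap G := by
  unfold Lap
  simp [Finset.sum_add_distrib]

theorem Lap_smul (r : ℂ) (F : (MvPowerSeries (Fin n) ℂ)) : Lap (C r * F) = C r * Lap F := by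
  unfold Lap
  rw [Finset.mul_sum]
  refine Finset.sum_congr rfl fun i _ => ?_
  rw [Derivation.leibniz, pderiv_C, smul_zero, add_zero, smul_eq_mul, Derivation.leibniz,
    pderiv_C, smul_zero, add_zero, smul_eq_mul]

theorem Lap_zero : Lap (0 : (MvPowerSeries (Fin n) ℂ)) = 0 := by
  unfold Lap
  simp

theorem Lap_sum {ι : Type*} (s : Finset ι) (F : ι → (MvPowerSeries (Fin n) ℂ)) : Lap (∑ i ∈ s, F i) = ∑ i ∈ s, Lap (F i) := by
  classical
  induction s using Finset.induction_on with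
  | empty => simp [Lap_zero]
  | insert i s hi ih => rw [Finset.sum_insert hi, Finset.sum_insert hi, Lap_add, ih]

theorem Lap_iter_sum {ι : Type*} (s : Finset ι) (F : ι → (MvPowerSeries (Fin n) ℂ)) (m : ℕ) :
    Lap^[m] (∑ i ∈ s, F i) = ∑ i ∈ s, Lap^[m] (F i) := by
  induction m generalizing F with
  | zero => rfl
  | succ m ih => simp only [Function.iterate_succ_apply]; rw [Lap_sum, ih]

theorem Lap_iter_smul (r : ℂ) (F : (MvPowerSeries (Fin n) ℂ)) (m : ℕ) : Lap^[m] (C r * F) = C r * Lap^[m] F := by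
  induction m generalizing F with
  | zero => rfl
  | succ m ih => simp only [Function.iterate_succ_apply]; rw [Lap_smul, ih]

theorem Lap_iter_zero (m : ℕ) : Lap^[m] (0 : (MvPowerSeries (Fin n) ℂ)) = 0 := by
  induction m with
  | zero => rfl
  | succ m ih => rw [Function.iterate_succ_apply, Lap_zero, ih]

/-- the hypotheses on the three vectors -/
structure Iso (a b c : Fin n → ℂ) : Prop where
  aa : a ⬝ᵥ a = 0
  bb : b ⬝ᵥ b = 0
  cc : c ⬝ᵥ c = 0
  ac : a ⬝ᵥ c = 0
  bc : b ⬝ᵥ c = 0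
  ab : a ⬝ᵥ b ≠ 0

theorem pderiv_term {a b c : Fin n → ℂ} {F : (MvPowerSeries (Fin n) ℂ)} (hF : XT a b F) (r s : ℕ) (i : Fin n) :
    pderiv ℂ i (F * lin b ^ r * lin c ^ s) =
      C (a i) * (dir b F * lin b ^ r * lin c ^ s)
      + C (b i) * ((r : (MvPowerSeries (Fin n) ℂ)) * (F * lin b ^ (r - 1) * lin c ^ s))
      + C (c i) * ((s : (MvPowerSeries (Fin n) ℂ)) * (F * lin b ^ r * lin c ^ (s - 1))) := by
  rw [Derivation.leibniz, Derivation.leibniz, pderiv_pow, pderiv_pow, pderiv_lin, pderiv_lin,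
    hF i]
  simp only [smul_eq_mul]
  ring

theorem natC (r : ℕ) : ((r : ℕ) : (MvPowerSeries (Fin n) ℂ)) = C (r : ℂ) := by simp

theorem Lap_term {a b c : Fin n → ℂ} (h : Iso a b c) {F : (MvPowerSeries (Fin n) ℂ)} (hF : XT a b F) (r s : ℕ) :
    Lap (F * lin b ^ r * lin c ^ s) =
      C (2 * (a ⬝ᵥ b) * r) * (dir b F * lin b ^ (r - 1) * lin c ^ s) := by
  have key : ∀ i, pderiv ℂ i (pderiv ℂ i (F * lin b ^ r * lin c ^ s)) =
      C (a i * a i) * (dir b (dir b F) * lin b ^ r * lin c ^ s)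
      + C (a i * b i) * (2 * ((r : (MvPowerSeries (Fin n) ℂ)) * (dir b F * lin b ^ (r - 1) * lin c ^ s)))
      + C (a i * c i) * (2 * ((s : (MvPowerSeries (Fin n) ℂ)) * (dir b F * lin b ^ r * lin c ^ (s - 1))))
      + C (b i * b i) * ((r : (MvPowerSeries (Fin n) ℂ)) * (((r - 1 : ℕ) : (MvPowerSeries (Fin n) ℂ)) * (F * lin b ^ (r - 1 - 1) * lin c ^ s)))
      + C (b i * c i) * (2 * ((r : (MvPowerSeries (Fin n) ℂ)) * ((s : (MvPowerSeries (Fin n) ℂ)) * (F * lin b ^ (r - 1) * lin c ^ (s - 1)))))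
      + C (c i * c i) * ((s : (MvPowerSeries (Fin n) ℂ)) * (((s - 1 : ℕ) : (MvPowerSeries (Fin n) ℂ)) * (F * lin b ^ r * lin c ^ (s - 1 - 1)))) := by
    intro i
    rw [pderiv_term hF]
    have e1 : ∀ (x : ℂ) (G : (MvPowerSeries (Fin n) ℂ)), pderiv ℂ i (C x * G) = C x * pderiv ℂ i G := by
      intro x G
      rw [Derivation.leibniz, pderiv_C, smul_zero, add_zero, smul_eq_mul]
    rw [map_add, map_add, e1, e1, e1, natC r, natC s, e1, e1, pderiv_term hF.dir,
      pderiv_term hF, pderiv_term hF]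
    rw [← natC r, ← natC s]
    simp only [map_mul]
    ring
  unfold Lap
  rw [Finset.sum_congr rfl fun i _ => key i]
  simp only [Finset.sum_add_distrib, ← Finset.sum_mul]
  have e2 : ∀ (v w : Fin n → ℂ), ∑ i, (C (v i * w i) : (MvPowerSeries (Fin n) ℂ)) = C (v ⬝ᵥ w) := by
    intro v w
    rw [dotProduct, map_sum]
  rw [e2, e2, e2, e2, e2, e2, h.aa, h.bb, h.cc, h.ac, h.bc]
  simp only [map_zero, zero_mul, add_zero, zero_add, map_mul]
  rw [← natC r]
  simp only [map_ofNat]
  ring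

theorem Lap_iter_term {a b c : Fin n → ℂ} (h : Iso a b c) (m : ℕ) : ∀ {F : (MvPowerSeries (Fin n) ℂ)} (_ : XT a b F)
    (r s : ℕ),
    Lap^[m] (F * lin b ^ r * lin c ^ s) =
      C ((2 * (a ⬝ᵥ b)) ^ m * (r.descFactorial m : ℂ)) *
        ((dir b)^[m] F * lin b ^ (r - m) * lin c ^ s) := by
  induction m with
  | zero => intro F _ r s; simp
  | succ m ih =>
    intro F hF r s
    rw [Function.iterate_succ_apply, Lap_term h hF, Lap_iter_smul, ih hF.dir, ← mul_assoc,
      ← map_mul, Function.iterate_succ_apply]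
    rcases r with _ | r
    · simp
    · rw [Nat.succ_descFactorial_succ]
      have e : r + 1 - 1 - m = r + 1 - (m + 1) := by omega
      rw [e]
      congr 2
      push_cast
      ring

/-- The series `P`. -/
noncomputable def PP (F : (MvPowerSeries (Fin n) ℂ)) (b c : Fin n → ℂ) (k : ℕ) : (MvPowerSeries (Fin n) ℂ) := F + lin b * lin c ^ k

theorem Lap_PP {a b c : Fin n → ℂ} (h : Iso a b c) {F : (MvPowerSeries (Fin n) ℂ)} (hF : XT a b F) (k m : ℕ)
    (hm : 1 ≤ m) :
    Lap^[m] (PP F b c k ^ (m + 1)) =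
      C ((2 * (a ⬝ᵥ b)) ^ m * ((m + 1).factorial : ℂ)) *
        ((dir b)^[m] F * lin c ^ (k * m)) := by
  unfold PP
  rw [add_pow, Lap_iter_sum]
  have key : ∀ j ∈ Finset.range (m + 1 + 1),
      Lap^[m] (F ^ j * (lin b * lin c ^ k) ^ (m + 1 - j) * (((m + 1).choose j : ℕ) : (MvPowerSeries (Fin n) ℂ))) =
      C ((m + 1).choose j : ℂ) * (C ((2 * (a ⬝ᵥ b)) ^ m * ((m + 1 - j).descFactorial m : ℂ)) *
        ((dir b)^[m] (F ^ j) * lin b ^ (m + 1 - j - m) * lin c ^ (k * (m + 1 - j)))) := by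
    intro j _
    rw [← Lap_iter_term h m (hF.pow j), ← Lap_iter_smul, natC]
    congr 1
    rw [mul_pow, ← pow_mul]
    ring
  rw [Finset.sum_congr rfl key]
  rw [Finset.sum_eq_single 1]
  · rw [Nat.choose_one_right, pow_one]
    have e1 : m + 1 - 1 = m := by omega
    rw [e1, Nat.descFactorial_self, Nat.sub_self, pow_zero, mul_one, Nat.factorial_succ,
      ← mul_assoc, ← map_mul]
    congr 2
    push_cast
    ring
  · intro j _ hj
    rcases Nat.eq_zero_or_pos j with rfl | hj'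
    · rw [pow_zero, dir_iter_one b m hm]; simp
    · have : (m + 1 - j).descFactorial m = 0 := by
        rw [Nat.descFactorial_eq_zero_iff_lt]; omega
      rw [this]; simp
  · intro h1
    exact absurd (Finset.mem_range.mpr (by omega)) h1

end Pool.Agent.U695.VP
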